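import Pool.Agent.U243.DB.Stm

set_option autoImplicit false

open MeasureTheory Set
open scoped ENNReal NNReal ContDiff Convolution

namespace Pool.Agent.U324.DB

open Pool.Agent.U243.DB

theorem dbar_sc {ψ : ℂ → ℂ} (hψ : IsKer ψ) (s : ℝ) (z : ℂ) :
    dbar (sc ψ s) z = ((s⁻¹ ^ 3 : ℝ) : ℂ) * dbar ψ (s⁻¹ • z) := by
  have hd : Differentiable ℝ ψ := hψ.1.differentiable (by simp)
  have h1 : HasFDerivAt (fun z : ℂ => s⁻¹ • z) (s⁻¹ • ContinuousLinearMap.id ℝ ℂ) z :=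
    (hasFDerivAt_id z).const_smul s⁻¹
  have h2 : HasFDerivAt (fun z => ψ (s⁻¹ • z))
      ((fderiv ℝ ψ (s⁻¹ • z)).comp (s⁻¹ • ContinuousLinearMap.id ℝ ℂ)) z :=
    (hd (s⁻¹ • z)).hasFDerivAt.comp z h1
  have h3 : HasFDerivAt (sc ψ s) (((s⁻¹ ^ 2 : ℝ) : ℂ) •
      ((fderiv ℝ ψ (s⁻¹ • z)).comp (s⁻¹ • ContinuousLinearMap.id ℝ ℂ))) z :=
    h2.const_smul (((s⁻¹ ^ 2 : ℝ) : ℂ))
  have h4 : ∀ v : ℂ, fderiv ℝ (sc ψ s) z v =
      ((s⁻¹ ^ 3 : ℝ) : ℂ) * fderiv ℝ ψ (s⁻¹ • z) v := by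
    intro v
    rw [h3.fderiv]
    have h5 : fderiv ℝ ψ (s⁻¹ • z) (s⁻¹ • v) = s⁻¹ • fderiv ℝ ψ (s⁻¹ • z) v :=
      (fderiv ℝ ψ (s⁻¹ • z)).map_smul s⁻¹ v
    calc _ = ((s⁻¹ ^ 2 : ℝ) : ℂ) * fderiv ℝ ψ (s⁻¹ • z) (s⁻¹ • v) := rfl
      _ = _ := by
        rw [h5, Complex.real_smul]
        push_cast
        ring
  rw [dbar, dbar, h4, h4]
  ring

theorem dbar_ker {ψ : ℂ → ℂ} (hψ : IsKer ψ) : IsKer (dbar ψ) := by
  have h1 : ContDiff ℝ ∞ (fderiv ℝ ψ) := hψ.1.fderiv_right (by simp)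
  refine ⟨?_, ?_⟩
  · unfold dbar
    have h2 : ContDiff ℝ ∞ (fun z => fderiv ℝ ψ z 1) := h1.clm_apply contDiff_const
    have h3 : ContDiff ℝ ∞ (fun z => fderiv ℝ ψ z Complex.I) := h1.clm_apply contDiff_const
    exact contDiff_const.mul (h2.add (contDiff_const.mul h3))
  · refine (hψ.2.fderiv ℝ).mono' ?_
    intro z hz
    refine subset_tsupport _ ?_
    intro h
    exact hz (by
      show dbar ψ z = 0
      rw [dbar, h]
      simp)

theorem int_fderiv {ψ : ℂ → ℂ} (hψ : IsKer ψ) (v : ℂ) : ∫ z, fderiv ℝ ψ z v = 0 := by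
  have h1 : Continuous (fderiv ℝ ψ) := hψ.1.continuous_fderiv (by simp)
  have h2 : Integrable (fun z => fderiv ℝ ψ z v) :=
    (h1.clm_apply continuous_const).integrable_of_hasCompactSupport
      ((hψ.2.fderiv ℝ).mono' fun z hz => subset_tsupport _ fun h => hz (by
        show fderiv ℝ ψ z v = 0
        rw [h]
        simp))
  have h3 : Integrable ψ := hψ.1.continuous.integrable_of_hasCompactSupport hψ.2
  have h := integral_mul_fderiv_eq_neg_fderiv_mul_of_integrable (μ := (volume : Measure ℂ))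
    (f := fun _ : ℂ => (1 : ℂ)) (g := ψ) (v := v) (by simp) (by simpa using h2)
    (by simpa using h3) (fun x _ => differentiableAt_const _)
    (fun x _ => hψ.1.differentiable (by simp) x)
  simpa using h

theorem dbar_int {ψ : ℂ → ℂ} (hψ : IsKer ψ) : ∫ z, dbar ψ z = 0 := by
  have h1 : Continuous (fderiv ℝ ψ) := hψ.1.continuous_fderiv (by simp)
  have h2 : ∀ v, Integrable (fun z => fderiv ℝ ψ z v) := fun v =>
    (h1.clm_apply continuous_const).integrable_of_hasCompactSupport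
      ((hψ.2.fderiv ℝ).mono' fun z hz => subset_tsupport _ fun h => hz (by
        show fderiv ℝ ψ z v = 0
        rw [h]
        simp))
  unfold dbar
  rw [integral_const_mul, integral_add (h2 1) ((h2 Complex.I).const_mul _), integral_const_mul,
    int_fderiv hψ, int_fderiv hψ]
  simp

theorem U_eq {ψ : ℂ → ℂ} (hψ : IsKer ψ) (Ω : Set ℂ) (s : ℝ) (z : ℂ) :
    U ψ Ω s z = ∫ w in Ω, ((s⁻¹ ^ 3 : ℝ) : ℂ) * dbar ψ (s⁻¹ • (z - w)) := by
  rw [U]
  refine integral_congr_ae (Filter.Eventually.of_forall fun w => ?_)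
  exact dbar_sc hψ s (z - w)

theorem U_meas {ψ : ℂ → ℂ} (hψ : IsKer ψ) (Ω : Set ℂ) :
    Measurable (fun p : ℝ × ℂ => U ψ Ω p.1 p.2) := by
  have hc : Measurable (dbar ψ) := (dbar_ker hψ).1.continuous.measurable
  have h1 : Measurable (fun q : (ℝ × ℂ) × ℂ =>
      ((q.1.1⁻¹ ^ 3 : ℝ) : ℂ) * dbar ψ (q.1.1⁻¹ • (q.1.2 - q.2))) := by
    refine Measurable.mul ?_ (hc.comp ?_)
    · exact Complex.measurable_ofReal.comp ((measurable_fst.comp measurable_fst).inv.pow_const 3)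
    · exact (measurable_fst.comp measurable_fst).inv.smul
        ((measurable_snd.comp measurable_fst).sub measurable_snd)
  have h2 := (h1.stronglyMeasurable.integral_prod_right'
    (ν := (volume : Measure ℂ).restrict Ω)).measurable
  have e : (fun p : ℝ × ℂ => U ψ Ω p.1 p.2) = fun p : ℝ × ℂ =>
      ∫ w in Ω, ((p.1⁻¹ ^ 3 : ℝ) : ℂ) * dbar ψ (p.1⁻¹ • (p.2 - w)) :=
    funext fun p => U_eq hψ Ω p.1 p.2
  rw [e]
  exact h2

theorem V_meas {ψ : ℂ → ℂ} (hψ : IsKer ψ) (Ω : Set ℂ) : Measurable (V ψ Ω) :=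
  (U_meas hψ Ω).enorm.lintegral_prod_right'

theorem U_cont {ψ : ℂ → ℂ} (hψ : IsKer ψ) {Ω : Set ℂ} (hΩ : MeasurableSet Ω) (s : ℝ) :
    Continuous (U ψ Ω s) := by
  have hker := dbar_ker hψ
  by_cases hs : s = 0
  · have h : U ψ Ω s = fun _ => 0 := by
      funext z
      rw [U_eq hψ, hs]
      simp
    rw [h]
    exact continuous_const
  · have hg : Continuous (fun z : ℂ => ((s⁻¹ ^ 3 : ℝ) : ℂ) * dbar ψ (s⁻¹ • z)) :=
      continuous_const.mul (hker.1.continuous.comp (continuous_const_smul _))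
    have hcg : HasCompactSupport (fun z : ℂ => ((s⁻¹ ^ 3 : ℝ) : ℂ) * dbar ψ (s⁻¹ • z)) :=
      (hker.2.comp_homeomorph (Homeomorph.smulOfNeZero s⁻¹ (inv_ne_zero hs))).mul_left
    have hf : LocallyIntegrable (Ω.indicator fun _ => (1 : ℂ)) (volume : Measure ℂ) :=
      (locallyIntegrable_const 1).indicator hΩ
    have h := hcg.continuous_convolution_right (ContinuousLinearMap.mul ℝ ℂ) hf hg
    refine h.congr fun z => ?_
    rw [U_eq hψ, ← integral_indicator hΩ, convolution]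
    refine integral_congr_ae (Filter.Eventually.of_forall fun w => ?_)
    by_cases hw : w ∈ Ω
    · simp [hw]
    · simp [hw]

theorem t_DBSC : S_DBSC := fun _ hψ =>
  ⟨dbar_sc hψ, dbar_ker hψ, dbar_int hψ, fun Ω hΩ =>
    ⟨U_meas hψ Ω, V_meas hψ Ω, fun s => U_cont hψ hΩ s⟩⟩

end Pool.Agent.U324.DB
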